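import Pool.Agent.Lib.MP_c11b14_lc.SCCount

/-!
Positive roots of `f g + U(x^m)`, where the exponents of `f` are congruent modulo `m`.
-/

set_option autoImplicit false

namespace Pool.Agent.MP_c11b14_lc.SC

open Complex Filter Topology Polynomial

/-- Descartes: the number of sign variations is less than the number of monomials. -/
theorem signVariations_lt {p : ℝ[X]} (hp : p ≠ 0) : p.signVariations + 1 ≤ p.support.card := by
  induction hn : p.support.card using Nat.strong_induction_on generalizing p with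
  | _ n ih =>
    by_cases h0 : p.eraseLead = 0
    · have h1 : p.signVariations ≤ 0 := by
        have h2 : p = monomial p.natDegree p.leadingCoeff := by
          have := p.eraseLead_add_monomial_natDegree_leadingCoeff
          rw [h0, zero_add] at this
          exact this.symm
        rw [h2, signVariations_monomial]
      have h2 : 0 < p.support.card := Finset.card_pos.2 (support_nonempty.2 hp)
      omega
    · have h1 := p.signVariations_le_eraseLead_succ
      have h2 : p.eraseLead.support.card < n := by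
        rw [← hn]
        exact eraseLead_support_card_lt hp
      have h3 := ih _ h2 h0 rfl
      omega

theorem card_pos_roots {p : ℝ[X]} (hp : p ≠ 0) :
    (p.roots.toFinset.filter (0 < ·)).card + 1 ≤ p.support.card := by
  have h1 := p.roots_countP_pos_le_signVariations
  have h2 := signVariations_lt hp
  have h3 : (p.roots.toFinset.filter (0 < ·)).card ≤ p.roots.countP (0 < ·) := by
    rw [Multiset.countP_eq_card_filter, ← Multiset.toFinset_filter]
    exact Multiset.toFinset_card_le _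
  omega

/-- Multiply the coefficients by `w i`. -/
noncomputable def twist (p : ℝ[X]) (w : ℕ → ℝ) : ℝ[X] :=
  ∑ i ∈ p.support, monomial i (p.coeff i * w i)

theorem twist_support (p : ℝ[X]) (w : ℕ → ℝ) : (twist p w).support ⊆ p.support := by
  intro i hi
  by_contra hc
  rw [mem_support_iff, twist, finset_sum_coeff] at hi
  refine hi (Finset.sum_eq_zero fun j hj => ?_)
  rw [coeff_monomial, if_neg]
  rintro rfl
  exact hc hj

theorem twist_eval (p : ℝ[X]) (w : ℕ → ℝ) (t : ℝ) :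
    (twist p w).eval t = ∑ i ∈ p.support, p.coeff i * w i * t ^ i := by
  simp [twist, eval_finset_sum]

theorem cx_eval_ray (p : ℝ[X]) (θ t : ℝ) :
    (cx p).eval ((t : ℂ) * exp (θ * I)) =
      ∑ i ∈ p.support, (p.coeff i * t ^ i : ℝ) * exp (((i * θ : ℝ) : ℂ) * I) := by
  rw [cx, eval_map, eval₂_eq_sum, Polynomial.sum]
  refine Finset.sum_congr rfl fun i _ => ?_
  rw [mul_pow, ← exp_nat_mul]
  simp only [coe_algebraMap]
  push_cast
  rw [mul_assoc, mul_assoc]

/-- The imaginary part of a rotated polynomial on the ray. -/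
theorem g_ray (φ : ℝ) (g : ℝ[X]) (θ t : ℝ) :
    (exp ((φ : ℂ) * I) * (cx g).eval ((t : ℂ) * exp (θ * I))).im =
      (twist g fun j => Real.sin (φ + j * θ)).eval t := by
  rw [cx_eval_ray, twist_eval, Finset.mul_sum, im_sum]
  refine Finset.sum_congr rfl fun j _ => ?_
  have h1 : exp ((φ : ℂ) * I) * (((g.coeff j * t ^ j : ℝ) : ℂ) *
      exp (((j * θ : ℝ) : ℂ) * I)) =
      ((g.coeff j * t ^ j : ℝ) : ℂ) * exp (((φ + j * θ : ℝ) : ℂ) * I) := by
    have h2 : (((φ + j * θ : ℝ) : ℂ) * I) =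
        (φ : ℂ) * I + ((j * θ : ℝ) : ℂ) * I := by push_cast; ring
    rw [h2, exp_add]
    ring
  rw [h1, im_ofReal_mul, exp_ofReal_mul_I_im]
  ring

/-- The imaginary part of `e^(iψ) w^k` vanishes only if that of some `e^(i(ψ - π j)/k) w` does. -/
theorem exists_im_eq_zero {k : ℕ} (hk : 1 ≤ k) (ψ : ℝ) (w : ℂ)
    (h : (exp ((ψ : ℂ) * I) * w ^ k).im = 0) :
    ∃ j ∈ Finset.range k, (exp ((((ψ - Real.pi * j) / k : ℝ) : ℂ) * I) * w).im = 0 := by
  have hk0 : (k : ℝ) ≠ 0 := by exact_mod_cast (by omega : k ≠ 0)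
  have hkpos : (0 : ℝ) < k := by exact_mod_cast (by omega : 0 < k)
  by_cases hw : w = 0
  · exact ⟨0, Finset.mem_range.2 (by omega), by simp [hw]⟩
  have hn : (‖w‖ : ℝ) ≠ 0 := by simpa using hw
  have h1 : exp ((ψ : ℂ) * I) * w ^ k =
      ((‖w‖ ^ k : ℝ) : ℂ) * exp (((ψ + k * arg w : ℝ) : ℂ) * I) := by
    conv_lhs => rw [← norm_mul_exp_arg_mul_I w]
    rw [mul_pow, ← exp_nat_mul]
    have h2 : (((ψ + k * arg w : ℝ) : ℂ) * I) = (ψ : ℂ) * I + (k : ℂ) * (arg w * I) := by
      push_cast; ring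
    rw [h2, exp_add]
    push_cast
    ring
  rw [h1, im_ofReal_mul, exp_ofReal_mul_I_im] at h
  obtain ⟨n, hn'⟩ := Real.sin_eq_zero_iff.1 ((mul_eq_zero.1 h).resolve_left (pow_ne_zero k hn))
  -- `ψ + k arg w = π n`, `n = k q + j`
  have hkz : (0 : ℤ) < (k : ℤ) := by exact_mod_cast (by omega : 0 < k)
  obtain ⟨j, hj⟩ : ∃ j : ℕ, (j : ℤ) = n % (k : ℤ) :=
    ⟨(n % (k : ℤ)).toNat, Int.toNat_of_nonneg (Int.emod_nonneg _ hkz.ne')⟩
  refine ⟨j, Finset.mem_range.2 ?_, ?_⟩
  · have := Int.emod_lt_of_pos n hkz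
    omega
  · have h3 : exp ((((ψ - Real.pi * j) / k : ℝ) : ℂ) * I) * w =
        ((‖w‖ : ℝ) : ℂ) * exp ((((ψ - Real.pi * j) / k + arg w : ℝ) : ℂ) * I) := by
      conv_lhs => rw [← norm_mul_exp_arg_mul_I w]
      have h4 : ((((ψ - Real.pi * j) / k + arg w : ℝ) : ℂ) * I) =
          ((((ψ - Real.pi * j) / k : ℝ) : ℂ) * I) + arg w * I := by push_cast; ring
      rw [h4, exp_add]
      ring
    rw [h3, im_ofReal_mul, exp_ofReal_mul_I_im]
    have h5 : (ψ - Real.pi * j) / k + arg w = ((n / (k : ℤ) : ℤ) : ℝ) * Real.pi := by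
      have h6 : (n : ℝ) = k * ((n / (k : ℤ) : ℤ) : ℝ) + j := by
        have h7 := Int.mul_ediv_add_emod n (k : ℤ)
        rw [← hj] at h7
        exact_mod_cast h7.symm
      have h8 : ψ + k * arg w = n * Real.pi := hn'.symm
      field_simp
      rw [h6] at h8
      linarith
    rw [h5, Real.sin_int_mul_pi, mul_zero]

theorem ray_pow {m : ℕ} (hm : 0 < m) (t : ℝ) :
    ((t : ℂ) * exp (((Real.pi / m : ℝ) : ℂ) * I)) ^ m = ((-(t ^ m) : ℝ) : ℂ) := by
  have h2 : (m : ℂ) ≠ 0 := by exact_mod_cast hm.ne'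
  rw [mul_pow, ← exp_nat_mul]
  have h3 : (m : ℂ) * (((Real.pi / m : ℝ) : ℂ) * I) = Real.pi * I := by
    push_cast
    field_simp
  rw [h3, exp_pi_mul_I]
  push_cast
  ring

/-- A polynomial in `x^m` is real on the ray. -/
theorem expand_ray {m : ℕ} (hm : 0 < m) (U : ℝ[X]) (t : ℝ) :
    (cx (expand ℝ m U)).eval ((t : ℂ) * exp (((Real.pi / m : ℝ) : ℂ) * I)) =
      ((U.eval (-(t ^ m)) : ℝ) : ℂ) := by
  rw [cx, map_expand, expand_eval, ray_pow hm, eval_map, ← aeval_def]
  have h4 := aeval_algebraMap_apply ℂ (-(t ^ m)) U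
  rw [coe_aeval_eq_eval] at h4
  exact h4

/-- The positive numbers `t` with `F (-t^m) = 0`. -/
theorem exists_ray_roots {m : ℕ} (hm : 0 < m) {F : ℝ[X]} (hF : F ≠ 0) :
    ∃ Z : Finset ℝ, (∀ t : ℝ, 0 < t → F.eval (-(t ^ m)) = 0 → t ∈ Z) ∧
      Z.card ≤ (F.roots.toFinset.filter (· < 0)).card := by
  classical
  refine ⟨(F.roots.toFinset.filter (· < 0)).image fun y => (-y) ^ (1 / m : ℝ), fun t ht h => ?_,
    Finset.card_image_le⟩
  refine Finset.mem_image.2 ⟨-(t ^ m), Finset.mem_filter.2 ⟨?_, ?_⟩, ?_⟩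
  · rw [Multiset.mem_toFinset, mem_roots hF]
    exact h
  · have := pow_pos ht m
    linarith
  · rw [neg_neg, ← Real.rpow_natCast, ← Real.rpow_mul ht.le]
    have h2 : (m : ℝ) ≠ 0 := by exact_mod_cast hm.ne'
    rw [mul_one_div_cancel h2, Real.rpow_one]

/-- The main count. -/
theorem pos_count {m ρ k : ℕ} (hm : 1 ≤ m) (hk : 1 ≤ k) {F g U : ℝ[X]} (hF : F ≠ 0)
    (h0 : X ^ ρ * expand ℝ m F * g ^ k + expand ℝ m U ≠ 0) :
    (X ^ ρ * expand ℝ m F * g ^ k + expand ℝ m U).roots.countP (0 < ·) ≤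
      (X ^ ρ * expand ℝ m F * g ^ k + expand ℝ m U).natDegree / m +
        (F.roots.toFinset.filter (· < 0)).card + k * (g.support.card - 1) + 1 := by
  classical
  rcases Nat.lt_or_ge m 2 with h1 | hm2
  · have h2 : m = 1 := by omega
    subst h2
    have h3 : (X ^ ρ * expand ℝ 1 F * g ^ k + expand ℝ 1 U).roots.countP (0 < ·) ≤
        (X ^ ρ * expand ℝ 1 F * g ^ k + expand ℝ 1 U).natDegree :=
      (Multiset.countP_le_card _ _).trans (card_roots' _)
    rw [Nat.div_one]
    omega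
  obtain ⟨G, hG⟩ : ∃ G : ℕ → ℝ[X], ∀ j, G j = twist g fun i =>
      Real.sin ((ρ * (Real.pi / m) - Real.pi * j) / k + i * (Real.pi / m)) := ⟨_, fun _ => rfl⟩
  have key : ∀ t : ℝ, 0 < t → ((cx (X ^ ρ * expand ℝ m F * g ^ k + expand ℝ m U)).eval
      ((t : ℂ) * exp (((Real.pi / m : ℝ) : ℂ) * I))).im =
      t ^ ρ * F.eval (-(t ^ m)) * (exp (((ρ * (Real.pi / m) : ℝ) : ℂ) * I) *
        (cx g).eval ((t : ℂ) * exp (((Real.pi / m : ℝ) : ℂ) * I)) ^ k).im := by
    intro t _
    have h1 : cx (X ^ ρ * expand ℝ m F * g ^ k + expand ℝ m U) =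
        X ^ ρ * cx (expand ℝ m F) * cx g ^ k + cx (expand ℝ m U) := by
      simp [cx]
    rw [h1, eval_add, eval_mul, eval_mul, eval_pow, eval_pow, eval_X, add_im,
      expand_ray (by omega), expand_ray (by omega), ofReal_im, add_zero, mul_pow, ← exp_nat_mul]
    have h2 : (t : ℂ) ^ ρ * exp ((ρ : ℂ) * (((Real.pi / m : ℝ) : ℂ) * I)) *
        ((F.eval (-(t ^ m)) : ℝ) : ℂ) *
        (cx g).eval ((t : ℂ) * exp (((Real.pi / m : ℝ) : ℂ) * I)) ^ k =
        ((t ^ ρ * F.eval (-(t ^ m)) : ℝ) : ℂ) *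
          (exp (((ρ * (Real.pi / m) : ℝ) : ℂ) * I) *
            (cx g).eval ((t : ℂ) * exp (((Real.pi / m : ℝ) : ℂ) * I)) ^ k) := by
      have h3 : (ρ : ℂ) * (((Real.pi / m : ℝ) : ℂ) * I) =
          (((ρ * (Real.pi / m) : ℝ) : ℂ) * I) := by
        push_cast; ring
      rw [h3]
      push_cast
      ring
    rw [h2, im_ofReal_mul]
  have hGim : ∀ (t : ℝ) (j : ℕ), (exp ((((ρ * (Real.pi / m) - Real.pi * j) / k : ℝ) : ℂ) * I) *
      (cx g).eval ((t : ℂ) * exp (((Real.pi / m : ℝ) : ℂ) * I))).im = (G j).eval t := by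
    intro t j
    rw [g_ray, hG]
  by_cases hG0 : ∃ j ∈ Finset.range k, G j = 0
  · obtain ⟨j, -, hj⟩ := hG0
    -- then the imaginary part vanishes identically
    have h2 := sector_count_zero hm2 h0 fun t ht => by
      rw [key t ht]
      have h3 : (exp ((((ρ * (Real.pi / m) - Real.pi * j) / k : ℝ) : ℂ) * I) *
          (cx g).eval ((t : ℂ) * exp (((Real.pi / m : ℝ) : ℂ) * I))).im = 0 := by
        rw [hGim, hj, eval_zero]
      have h4 : (exp (((ρ * (Real.pi / m) : ℝ) : ℂ) * I) *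
          (cx g).eval ((t : ℂ) * exp (((Real.pi / m : ℝ) : ℂ) * I)) ^ k).im = 0 := by
        obtain ⟨r, hr⟩ : ∃ r : ℝ, exp ((((ρ * (Real.pi / m) - Real.pi * j) / k : ℝ) : ℂ) * I) *
            (cx g).eval ((t : ℂ) * exp (((Real.pi / m : ℝ) : ℂ) * I)) = r :=
          ⟨_, Complex.ext rfl h3⟩
        have hk0 : (k : ℂ) ≠ 0 := by exact_mod_cast (by omega : k ≠ 0)
        have h5 : exp (((ρ * (Real.pi / m) : ℝ) : ℂ) * I) *
            (cx g).eval ((t : ℂ) * exp (((Real.pi / m : ℝ) : ℂ) * I)) ^ k =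
            (r : ℂ) ^ k * exp (((j * Real.pi : ℝ) : ℂ) * I) := by
          rw [← hr, mul_pow, ← exp_nat_mul, mul_right_comm, ← exp_add]
          congr 2
          push_cast
          field_simp
          ring
        rw [h5, ← ofReal_pow, im_ofReal_mul, exp_ofReal_mul_I_im, Real.sin_nat_mul_pi, mul_zero]
      rw [h4, mul_zero]
    omega
  push Not at hG0
  obtain ⟨Z, hZ, hZc⟩ := exists_ray_roots (m := m) (by omega) hF
  have h2 := sector_count hm2 (X ^ ρ * expand ℝ m F * g ^ k + expand ℝ m U)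
    (Z ∪ (Finset.range k).biUnion fun j => (G j).roots.toFinset.filter (0 < ·))
    fun t ht him => by
      rw [key t ht] at him
      rw [Finset.mem_union, Finset.mem_biUnion]
      rcases mul_eq_zero.1 him with h | h
      · exact Or.inl (hZ t ht ((mul_eq_zero.1 h).resolve_left (pow_pos ht ρ).ne'))
      · right
        obtain ⟨j, hj, hj'⟩ := exists_im_eq_zero hk _ _ h
        refine ⟨j, hj, ?_⟩
        rw [hGim] at hj'
        rw [Finset.mem_filter, Multiset.mem_toFinset, mem_roots (hG0 j hj)]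
        exact ⟨hj', ht⟩
  have h3 := Finset.card_union_le Z
    ((Finset.range k).biUnion fun j => (G j).roots.toFinset.filter (0 < ·))
  have h4 : ((Finset.range k).biUnion fun j => (G j).roots.toFinset.filter (0 < ·)).card ≤
      k * (g.support.card - 1) := by
    refine (Finset.card_biUnion_le_card_mul _ _ (g.support.card - 1) fun j hj => ?_).trans ?_
    · have h5 := card_pos_roots (hG0 j hj)
      have h7 : (G j).support.card ≤ g.support.card := by
        rw [hG]
        exact Finset.card_le_card (twist_support _ _)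
      omega
    · rw [Finset.card_range]
  omega

end Pool.Agent.MP_c11b14_lc.SC
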