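import Mathlib

/-!
The argument of a linear factor along a ray.
-/

set_option autoImplicit false

namespace Pool.Agent.MP_c11b14_lc.SC

open Complex Filter Topology

/-- `w` is a positive real number. -/
def Pos (w : ℂ) : Prop := 0 < w.re ∧ w.im = 0

open Classical in
/-- The argument of `t - w` for `t ≥ 0`, where `0` is taken if `w` is a positive real number. -/
noncomputable def ang (w : ℂ) (t : ℝ) : ℝ := if Pos w then 0 else arg (t - w)

theorem ang_pos {w : ℂ} (h : Pos w) (t : ℝ) : ang w t = 0 := if_pos h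

theorem ang_not_pos {w : ℂ} (h : ¬ Pos w) (t : ℝ) : ang w t = arg (t - w) := if_neg h

theorem mem_slit {w : ℂ} (h : ¬ Pos w) {t : ℝ} (ht : 0 ≤ t) (h0 : ¬ (t = 0 ∧ w = 0)) :
    (t : ℂ) - w ∈ slitPlane := by
  rw [mem_slitPlane_iff]
  by_cases him : w.im = 0
  · left
    have hre : w.re ≤ 0 := by
      by_contra hc
      exact h ⟨not_le.1 hc, him⟩
    simp only [sub_re, ofReal_re]
    by_contra hc
    have h1 : t = 0 := by linarith
    have h2 : w.re = 0 := by linarith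
    exact h0 ⟨h1, Complex.ext h2 him⟩
  · right
    simpa using him

theorem ang_zero_left (t : ℝ) (ht : 0 ≤ t) : ang 0 t = 0 := by
  have h : ¬ Pos 0 := fun h => by simpa using h.1
  rw [ang_not_pos h, sub_zero, arg_ofReal_of_nonneg ht]

theorem continuousOn_ang (w : ℂ) : ContinuousOn (ang w) (Set.Ici 0) := by
  by_cases h : Pos w
  · exact continuousOn_const.congr fun t _ => ang_pos h t
  by_cases hw : w = 0
  · subst hw
    exact continuousOn_const.congr fun t ht => ang_zero_left t ht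
  intro t ht
  have h1 : (t : ℂ) - w ∈ slitPlane := mem_slit h ht fun h => hw h.2
  have h2 : ContinuousAt (fun t : ℝ => (t : ℂ) - w) t := by fun_prop
  have h3 : ContinuousAt (fun t : ℝ => arg ((t : ℂ) - w)) t :=
    ContinuousAt.comp (f := fun t : ℝ => (t : ℂ) - w) (x := t) (continuousAt_arg h1) h2
  have h4 : ang w = fun t : ℝ => arg ((t : ℂ) - w) := funext fun t => ang_not_pos h t
  rw [h4]
  exact h3.continuousWithinAt

theorem tendsto_ang (w : ℂ) : Tendsto (ang w) atTop (𝓝 0) := by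
  by_cases h : Pos w
  · exact tendsto_const_nhds.congr fun t => (ang_pos h t).symm
  have h4 : ang w = fun t : ℝ => arg ((t : ℂ) - w) := funext fun t => ang_not_pos h t
  rw [h4]
  have h1 : Tendsto (fun t : ℝ => (1 : ℂ) - w * ((t⁻¹ : ℝ) : ℂ)) atTop (𝓝 1) := by
    have h2 : Tendsto (fun t : ℝ => ((t⁻¹ : ℝ) : ℂ)) atTop (𝓝 ((0 : ℝ) : ℂ)) :=
      (continuous_ofReal.tendsto 0).comp tendsto_inv_atTop_zero
    have h3 := (h2.const_mul w).const_sub 1
    simpa using h3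
  have h2 : Tendsto (fun t : ℝ => arg ((1 : ℂ) - w * ((t⁻¹ : ℝ) : ℂ))) atTop (𝓝 (arg 1)) :=
    ((continuousAt_arg (by simp)).tendsto).comp h1
  rw [arg_one] at h2
  refine h2.congr' ?_
  filter_upwards [eventually_gt_atTop 0] with t ht
  have h3 : (t : ℂ) - w = (t : ℝ) * ((1 : ℂ) - w * ((t⁻¹ : ℝ) : ℂ)) := by
    have : (t : ℂ) ≠ 0 := by exact_mod_cast ht.ne'
    push_cast
    field_simp
  rw [h3, arg_real_mul _ ht]

/-- Up to a real factor, which is not zero if `t ≠ w`, the number `t - w` is `exp (i ang w t)`. -/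
theorem exists_real (w : ℂ) (t : ℝ) :
    ∃ r : ℝ, (t : ℂ) - w = r * exp (ang w t * I) ∧ ((t : ℂ) ≠ w → r ≠ 0) := by
  by_cases h : Pos w
  · refine ⟨t - w.re, ?_, fun hne h0 => hne ?_⟩
    · rw [ang_pos h]
      apply Complex.ext <;> simp [h.2]
    · apply Complex.ext
      · simp; linarith
      · simp [h.2]
  · refine ⟨‖(t : ℂ) - w‖, ?_, fun hne => by simpa [sub_eq_zero] using hne⟩
    rw [ang_not_pos h, norm_mul_exp_arg_mul_I]

theorem pos_iff_real (x : ℝ) : Pos (x : ℂ) ↔ 0 < x := by simp [Pos]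

/-- Two real numbers with the same `exp (i x)`. -/
theorem angle_bound {x y : ℝ} (hx : y - 2 * Real.pi < x) (h : exp (x * I) = exp (y * I)) :
    y ≤ x := by
  rw [exp_eq_exp_iff_exists_int] at h
  obtain ⟨n, hn⟩ := h
  have h1 : x = y + n * (2 * Real.pi) := by
    have h2 := congrArg Complex.im hn
    simpa using h2
  have hpi := Real.pi_pos
  have hn0 : 0 ≤ n := by
    by_contra hc
    have hc' : (n : ℝ) ≤ -1 := by exact_mod_cast (by omega : n ≤ -1)
    nlinarith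
  have h3 : (0 : ℝ) ≤ n := by exact_mod_cast hn0
  nlinarith

theorem exp_arg {w : ℂ} (hw : w ≠ 0) : exp (arg w * I) = w / ‖w‖ := by
  have h : (‖w‖ : ℂ) ≠ 0 := by simpa using hw
  rw [eq_div_iff h, mul_comm, norm_mul_exp_arg_mul_I]

theorem norm_rot (z : ℂ) (θ : ℝ) : ‖z * exp (-(θ : ℂ) * I)‖ = ‖z‖ := by
  rw [norm_mul, show -(θ : ℂ) * I = ((-θ : ℝ) : ℂ) * I by push_cast; ring, norm_exp_ofReal_mul_I,
    mul_one]

theorem pair_aux {θ : ℝ} (hθ : 0 < θ) (hθ' : θ ≤ Real.pi / 2) {z : ℂ} (hz : z ≠ 0)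
    (h1 : Pos (z * exp (-(θ : ℂ) * I))) :
    0 ≤ ang ((starRingEnd ℂ) z * exp (-(θ : ℂ) * I)) 0 := by
  by_cases h2 : Pos ((starRingEnd ℂ) z * exp (-(θ : ℂ) * I))
  · rw [ang_pos h2]
  rw [ang_not_pos h2, ofReal_zero, zero_sub]
  have hn : (‖z‖ : ℂ) ≠ 0 := by simpa using hz
  have he : exp (-(θ : ℂ) * I) ≠ 0 := exp_ne_zero _
  -- `z = |z| e^{iθ}`
  have h3 : z * exp (-(θ : ℂ) * I) = ‖z‖ := by
    have h4 : z * exp (-(θ : ℂ) * I) = ((z * exp (-(θ : ℂ) * I)).re : ℂ) :=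
      Complex.ext (by simp) (by rw [h1.2, ofReal_im])
    have h5 : ‖z * exp (-(θ : ℂ) * I)‖ = (z * exp (-(θ : ℂ) * I)).re := by
      rw [h4, norm_real, Real.norm_eq_abs, ofReal_re, abs_of_pos h1.1]
    rw [h4, ← h5, norm_rot]
  have h6 : z = ‖z‖ * exp ((θ : ℂ) * I) := by
    rw [← h3, mul_assoc, ← exp_add]
    simp
  have h7 : (starRingEnd ℂ) z * exp (-(θ : ℂ) * I) = ‖z‖ * exp (((-(2 * θ) : ℝ) : ℂ) * I) := by
    have h8 : (starRingEnd ℂ) z = ‖z‖ * exp (-(θ : ℂ) * I) := by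
      conv_lhs => rw [h6]
      rw [map_mul, conj_ofReal, ← exp_conj, map_mul, conj_ofReal, conj_I]
      congr 2
      ring
    rw [h8, mul_assoc, ← exp_add]
    congr 2
    push_cast
    ring
  have hne : -((starRingEnd ℂ) z * exp (-(θ : ℂ) * I)) ≠ 0 := by
    rw [h7]
    exact neg_ne_zero.2 (mul_ne_zero hn (exp_ne_zero _))
  have hpi := Real.pi_pos
  have h9 : exp (((arg (-((starRingEnd ℂ) z * exp (-(θ : ℂ) * I))) + Real.pi : ℝ) : ℂ) * I) =
      exp (((2 * Real.pi - 2 * θ : ℝ) : ℂ) * I) := by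
    have h10 : exp (((2 * Real.pi - 2 * θ : ℝ) : ℂ) * I) = exp (((-(2 * θ) : ℝ) : ℂ) * I) := by
      have : ((2 * Real.pi - 2 * θ : ℝ) : ℂ) * I =
          ((-(2 * θ) : ℝ) : ℂ) * I + 2 * Real.pi * I := by
        push_cast; ring
      rw [this, exp_add, exp_two_pi_mul_I, mul_one]
    rw [h10]
    push_cast
    rw [add_mul, exp_add, exp_pi_mul_I, exp_arg hne, norm_neg, norm_rot, norm_conj, h7]
    push_cast
    field_simp
  have h10 := angle_bound (y := 2 * Real.pi - 2 * θ) (x := arg _ + Real.pi) (by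
    have := neg_pi_lt_arg (-((starRingEnd ℂ) z * exp (-(θ : ℂ) * I)))
    linarith) h9
  linarith

theorem ang_zero_pair {θ : ℝ} (hθ : 0 < θ) (hθ' : θ ≤ Real.pi / 2) (z : ℂ) :
    -(2 * θ) ≤ ang (z * exp (-(θ : ℂ) * I)) 0 +
      ang ((starRingEnd ℂ) z * exp (-(θ : ℂ) * I)) 0 := by
  by_cases hz : z = 0
  · subst hz
    simp only [zero_mul, map_zero, ang_zero_left 0 le_rfl]
    linarith
  by_cases h1 : Pos (z * exp (-(θ : ℂ) * I))
  · have := pair_aux hθ hθ' hz h1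
    rw [ang_pos h1]
    linarith
  by_cases h2 : Pos ((starRingEnd ℂ) z * exp (-(θ : ℂ) * I))
  · have h3 := pair_aux hθ hθ' (z := (starRingEnd ℂ) z) (by simpa using hz) h2
    rw [conj_conj] at h3
    rw [ang_pos h2]
    linarith
  rw [ang_not_pos h1, ang_not_pos h2, ofReal_zero, zero_sub, zero_sub]
  have hn : (‖z‖ : ℂ) ≠ 0 := by simpa using hz
  have he : exp (-(θ : ℂ) * I) ≠ 0 := exp_ne_zero _
  have hn1 : -(z * exp (-(θ : ℂ) * I)) ≠ 0 := neg_ne_zero.2 (mul_ne_zero hz he)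
  have hn2 : -((starRingEnd ℂ) z * exp (-(θ : ℂ) * I)) ≠ 0 :=
    neg_ne_zero.2 (mul_ne_zero (by simpa using hz) he)
  have hpi := Real.pi_pos
  refine angle_bound ?_ ?_
  · have h3 := neg_pi_lt_arg (-(z * exp (-(θ : ℂ) * I)))
    have h4 := neg_pi_lt_arg (-((starRingEnd ℂ) z * exp (-(θ : ℂ) * I)))
    linarith
  · push_cast
    rw [add_mul, exp_add, exp_arg hn1, exp_arg hn2, norm_neg, norm_neg, norm_rot, norm_rot,
      norm_conj]
    have h5 : z * (starRingEnd ℂ) z = (‖z‖ : ℂ) ^ 2 := by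
      rw [mul_conj, normSq_eq_norm_sq]
      push_cast
      ring
    have h6 : -(z * exp (-(θ : ℂ) * I)) / ‖z‖ * (-((starRingEnd ℂ) z * exp (-(θ : ℂ) * I)) / ‖z‖)
        = (z * (starRingEnd ℂ) z) / (‖z‖ : ℂ) ^ 2 * (exp (-(θ : ℂ) * I) * exp (-(θ : ℂ) * I)) := by
      field_simp
    rw [h6, h5, div_self (pow_ne_zero 2 hn), one_mul, ← exp_add]
    congr 1
    ring

theorem ang_zero_pair_pos {θ : ℝ} (hθ : 0 < θ) (hθ' : θ ≤ Real.pi / 2) {z : ℂ} (hz : Pos z) :
    2 * (Real.pi - θ) = ang (z * exp (-(θ : ℂ) * I)) 0 +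
      ang ((starRingEnd ℂ) z * exp (-(θ : ℂ) * I)) 0 := by
  have hpi := Real.pi_pos
  have h1 : z = (z.re : ℂ) := Complex.ext (by simp) (by rw [hz.2, ofReal_im])
  have h2 : (starRingEnd ℂ) z = z := by rw [h1, conj_ofReal]
  have hs : 0 < Real.sin θ := Real.sin_pos_of_pos_of_lt_pi hθ (by linarith)
  have h3 : exp (-(θ : ℂ) * I) = (Real.cos θ : ℂ) - Real.sin θ * I := by
    rw [show -(θ : ℂ) * I = ((-θ : ℝ) : ℂ) * I by push_cast; ring, exp_mul_I, ← ofReal_cos,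
      ← ofReal_sin, Real.cos_neg, Real.sin_neg]
    push_cast
    ring
  have h4 : ¬ Pos (z * exp (-(θ : ℂ) * I)) := by
    intro h
    have h5 := h.2
    rw [h1, h3] at h5
    simp only [mul_im, ofReal_re, sub_im, ofReal_im, mul_re, I_re, I_im] at h5
    have h6 : z.re * Real.sin θ = 0 := by linarith
    rcases mul_eq_zero.1 h6 with h | h
    · exact hz.1.ne' h
    · exact hs.ne' h
  rw [h2, ang_not_pos h4, ofReal_zero, zero_sub]
  have h5 : -(z * exp (-(θ : ℂ) * I)) =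
      (z.re : ℂ) * (cos ((Real.pi - θ : ℝ) : ℂ) + sin ((Real.pi - θ : ℝ) : ℂ) * I) := by
    rw [← ofReal_cos, ← ofReal_sin, Real.cos_pi_sub, Real.sin_pi_sub, h3]
    conv_lhs => rw [h1]
    push_cast
    ring
  rw [h5, arg_mul_cos_add_sin_mul_I hz.1 ⟨by linarith, by linarith⟩]
  ring

end Pool.Agent.MP_c11b14_lc.SC
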