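import Pool.Agent.Lib.MP_c11b14_lc.SCArg

/-!
The number of positive roots of a real polynomial, from the argument along a ray.
-/

set_option autoImplicit false

namespace Pool.Agent.MP_c11b14_lc.SC

open Complex Filter Topology Polynomial

/-- A real polynomial as a complex polynomial. -/
noncomputable def cx (h : ℝ[X]) : ℂ[X] := h.map (algebraMap ℝ ℂ)

/-- Sum of the arguments of `t - z e^{-iθ}` over a multiset. -/
noncomputable def angSum (θ : ℝ) (R : Multiset ℂ) (t : ℝ) : ℝ :=
  (R.map fun z => ang (z * exp (-(θ : ℂ) * I)) t).sum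

theorem angSum_empty (θ : ℝ) : angSum θ 0 = fun _ => 0 := by
  funext t
  simp [angSum]

theorem continuousOn_angSum (θ : ℝ) (R : Multiset ℂ) :
    ContinuousOn (angSum θ R) (Set.Ici 0) := by
  induction R using Multiset.induction_on with
  | empty => rw [angSum_empty]; exact continuousOn_const
  | cons z R ih =>
    have h : angSum θ (z ::ₘ R) = fun t => ang (z * exp (-(θ : ℂ) * I)) t + angSum θ R t := by
      funext t
      simp [angSum]
    rw [h]
    exact (continuousOn_ang _).add ih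

theorem tendsto_angSum (θ : ℝ) (R : Multiset ℂ) : Tendsto (angSum θ R) atTop (𝓝 0) := by
  induction R using Multiset.induction_on with
  | empty => rw [angSum_empty]; exact tendsto_const_nhds
  | cons z R ih =>
    have h : angSum θ (z ::ₘ R) = fun t => ang (z * exp (-(θ : ℂ) * I)) t + angSum θ R t := by
      funext t
      simp [angSum]
    rw [h]
    simpa using (tendsto_ang _).add ih

theorem prod_angSum (θ : ℝ) (R : Multiset ℂ) (t : ℝ) :
    ∃ r : ℝ, (R.map fun z => (t : ℂ) * exp (θ * I) - z).prod =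
      r * exp (((R.card * θ + angSum θ R t : ℝ) : ℂ) * I) := by
  induction R using Multiset.induction_on with
  | empty => exact ⟨1, by simp [angSum]⟩
  | cons z R ih =>
    obtain ⟨r, hr⟩ := ih
    obtain ⟨r', hr', -⟩ := exists_real (z * exp (-(θ : ℂ) * I)) t
    refine ⟨r' * r, ?_⟩
    have h1 : (t : ℂ) * exp (θ * I) - z = exp (θ * I) * ((t : ℂ) - z * exp (-(θ : ℂ) * I)) := by
      have h2 : exp ((θ : ℂ) * I) * exp (-(θ : ℂ) * I) = 1 := by
        rw [← exp_add]
        simp
      linear_combination z * h2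
    rw [Multiset.map_cons, Multiset.prod_cons, hr, h1, hr']
    have h3 : (((Multiset.card (z ::ₘ R) : ℝ) * θ + angSum θ (z ::ₘ R) t : ℝ) : ℂ) * I =
        θ * I + (ang (z * exp (-(θ : ℂ) * I)) t : ℂ) * I +
          (((Multiset.card R : ℝ) * θ + angSum θ R t : ℝ) : ℂ) * I := by
      rw [Multiset.card_cons]
      simp only [angSum, Multiset.map_cons, Multiset.sum_cons]
      push_cast
      ring
    rw [h3, exp_add, exp_add]
    push_cast
    ring

open Classical in
theorem angSum_pair_zero {θ : ℝ} (hθ : 0 < θ) (hθ' : θ ≤ Real.pi / 2) (R : Multiset ℂ) :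
    2 * Real.pi * (R.countP Pos : ℕ) - 2 * θ * (R.card : ℕ) ≤
      angSum θ R 0 + angSum θ (R.map (starRingEnd ℂ)) 0 := by
  induction R using Multiset.induction_on with
  | empty => simp [angSum]
  | cons z R ih =>
    have h1 : angSum θ (z ::ₘ R) 0 = ang (z * exp (-(θ : ℂ) * I)) 0 + angSum θ R 0 := by
      simp [angSum]
    have h2 : angSum θ ((z ::ₘ R).map (starRingEnd ℂ)) 0 =
        ang ((starRingEnd ℂ) z * exp (-(θ : ℂ) * I)) 0 + angSum θ (R.map (starRingEnd ℂ)) 0 := by
      simp only [angSum, Multiset.map_cons, Multiset.sum_cons]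
    rw [h1, h2, Multiset.card_cons]
    by_cases hz : Pos z
    · rw [Multiset.countP_cons_of_pos _ hz]
      have := ang_zero_pair_pos hθ hθ' hz
      push_cast
      linarith
    · rw [Multiset.countP_cons_of_neg _ hz]
      have := ang_zero_pair hθ hθ' z
      push_cast
      linarith

theorem cx_splits (h : ℝ[X]) : (cx h).Splits := IsAlgClosed.splits _

theorem card_roots_cx (h : ℝ[X]) : (cx h).roots.card = h.natDegree := by
  rw [← (cx_splits h).natDegree_eq_card_roots, cx, natDegree_map]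

theorem roots_conj (h : ℝ[X]) : (cx h).roots.map (starRingEnd ℂ) = (cx h).roots := by
  rw [← (cx_splits h).roots_map (starRingEnd ℂ)]
  congr 1
  ext i
  simp [cx]

open Classical in
theorem countP_le (h : ℝ[X]) : h.roots.countP (0 < ·) ≤ (cx h).roots.countP Pos := by
  have h1 : h.roots.map (algebraMap ℝ ℂ) ≤ (cx h).roots :=
    map_roots_le_of_injective h (algebraMap ℝ ℂ).injective
  have h2 := Multiset.countP_le_of_le Pos h1
  rw [Multiset.countP_map, ← Multiset.countP_eq_card_filter] at h2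
  convert h2 using 2
  simp [Pos]

/-- The continuous argument of `h (t e^{iθ})`, up to multiples of `π`. -/
noncomputable def argFn (h : ℝ[X]) (θ t : ℝ) : ℝ := h.natDegree * θ + angSum θ (cx h).roots t

theorem argFn_zero {θ : ℝ} (hθ : 0 < θ) (hθ' : θ ≤ Real.pi / 2) (h : ℝ[X]) :
    Real.pi * (h.roots.countP (0 < ·) : ℕ) ≤ argFn h θ 0 := by
  classical
  have h1 := angSum_pair_zero hθ hθ' (cx h).roots
  rw [roots_conj, card_roots_cx] at h1
  have h2 : ((h.roots.countP (0 < ·) : ℕ) : ℝ) ≤ ((cx h).roots.countP Pos : ℕ) := by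
    exact_mod_cast countP_le h
  have hpi := Real.pi_pos
  have h3 : Real.pi * (h.roots.countP (0 < ·) : ℕ) ≤ Real.pi * ((cx h).roots.countP Pos : ℕ) :=
    mul_le_mul_of_nonneg_left h2 hpi.le
  unfold argFn
  linarith

theorem continuousOn_argFn (h : ℝ[X]) (θ : ℝ) : ContinuousOn (argFn h θ) (Set.Ici 0) :=
  continuousOn_const.add (continuousOn_angSum _ _)

theorem tendsto_argFn (h : ℝ[X]) (θ : ℝ) :
    Tendsto (argFn h θ) atTop (𝓝 (h.natDegree * θ)) := by
  have h1 := (tendsto_angSum θ (cx h).roots).const_add (h.natDegree * θ)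
  rw [add_zero] at h1
  exact h1

theorem eval_argFn (h : ℝ[X]) (θ t : ℝ) :
    ∃ r : ℝ, (cx h).eval ((t : ℂ) * exp (θ * I)) = r * exp ((argFn h θ t : ℂ) * I) := by
  obtain ⟨r, hr⟩ := prod_angSum θ (cx h).roots t
  refine ⟨h.leadingCoeff * r, ?_⟩
  rw [(cx_splits h).eval_eq_prod_roots, hr, card_roots_cx]
  have h1 : (cx h).leadingCoeff = (h.leadingCoeff : ℂ) := by
    rw [cx, leadingCoeff_map]
    rfl
  rw [h1, argFn]
  push_cast
  ring

theorem im_eval {h : ℝ[X]} {θ t r : ℝ}
    (hr : (cx h).eval ((t : ℂ) * exp (θ * I)) = r * exp ((argFn h θ t : ℂ) * I)) :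
    ((cx h).eval ((t : ℂ) * exp (θ * I))).im = r * Real.sin (argFn h θ t) := by
  rw [hr, im_ofReal_mul, exp_ofReal_mul_I_im]

/-- The argument takes all values between the two limits. -/
theorem exists_argFn_eq (h : ℝ[X]) (θ v : ℝ) (h1 : h.natDegree * θ < v) (h2 : v < argFn h θ 0) :
    ∃ t : ℝ, 0 < t ∧ argFn h θ t = v := by
  obtain ⟨T, hT, hT0⟩ := (((tendsto_argFn h θ).eventually (gt_mem_nhds h1)).and
    (eventually_gt_atTop 0)).exists
  obtain ⟨t, ht, htv⟩ := intermediate_value_Icc' hT0.le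
    ((continuousOn_argFn h θ).mono fun x hx => hx.1) ⟨hT.le, h2.le⟩
  refine ⟨t, lt_of_le_of_ne ht.1 ?_, htv⟩
  rintro rfl
  exact h2.ne htv.symm

theorem sector_count {m : ℕ} (hm : 2 ≤ m) (h : ℝ[X]) (Z : Finset ℝ)
    (hZ : ∀ t : ℝ, 0 < t →
      ((cx h).eval ((t : ℂ) * exp (((Real.pi / m : ℝ) : ℂ) * I))).im = 0 → t ∈ Z) :
    h.roots.countP (0 < ·) ≤ h.natDegree / m + Z.card + 1 := by
  have hm0 : (0 : ℝ) < m := by exact_mod_cast (by omega : 0 < m)
  have hm2 : (2 : ℝ) ≤ m := by exact_mod_cast hm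
  have hpi := Real.pi_pos
  have hθ : 0 < Real.pi / m := by positivity
  have hθ' : Real.pi / m ≤ Real.pi / 2 := div_le_div_of_nonneg_left hpi.le (by norm_num) hm2
  have h0 := argFn_zero hθ hθ' h
  have h1 : ∀ k ∈ Finset.Ioo (h.natDegree / m) (h.roots.countP (0 < ·)),
      ∃ t ∈ Z, argFn h (Real.pi / m) t = k * Real.pi := by
    intro k hk
    rw [Finset.mem_Ioo] at hk
    obtain ⟨t, ht, htk⟩ := exists_argFn_eq h (Real.pi / m) (k * Real.pi) (by
      have h2 : h.natDegree < k * m := (Nat.div_lt_iff_lt_mul (by omega)).1 hk.1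
      have h3 : (h.natDegree : ℝ) < k * m := by exact_mod_cast h2
      rw [← mul_div_assoc, div_lt_iff₀ hm0]
      nlinarith) (by
      have h2 : (k : ℝ) < (h.roots.countP (0 < ·) : ℕ) := by exact_mod_cast hk.2
      nlinarith)
    refine ⟨t, hZ t ht ?_, htk⟩
    obtain ⟨r, hr⟩ := eval_argFn h (Real.pi / m) t
    rw [im_eval hr, htk, Real.sin_nat_mul_pi, mul_zero]
  choose! T hTZ hT using h1
  have h2 : (Finset.Ioo (h.natDegree / m) (h.roots.countP (0 < ·))).card ≤ Z.card := by
    refine Finset.card_le_card_of_injOn T hTZ fun k hk l hl hkl => ?_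
    have h3 := hT k hk
    rw [hkl, hT l hl] at h3
    have h4 := mul_right_cancel₀ hpi.ne' h3
    exact_mod_cast h4.symm
  rw [Nat.card_Ioo] at h2
  omega

theorem sector_count_zero {m : ℕ} (hm : 2 ≤ m) {h : ℝ[X]} (h0 : h ≠ 0)
    (hZ : ∀ t : ℝ, 0 < t →
      ((cx h).eval ((t : ℂ) * exp (((Real.pi / m : ℝ) : ℂ) * I))).im = 0) :
    h.roots.countP (0 < ·) ≤ h.natDegree / m := by
  have hm0 : (0 : ℝ) < m := by exact_mod_cast (by omega : 0 < m)
  have hm2 : (2 : ℝ) ≤ m := by exact_mod_cast hm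
  have hpi := Real.pi_pos
  have hθ : 0 < Real.pi / m := by positivity
  have hθ' : Real.pi / m ≤ Real.pi / 2 := div_le_div_of_nonneg_left hpi.le (by norm_num) hm2
  have h0' := argFn_zero hθ hθ' h
  by_contra hc
  rw [not_le] at hc
  have h2 : h.natDegree < h.roots.countP (0 < ·) * m := (Nat.div_lt_iff_lt_mul (by omega)).1 hc
  have h3 : (h.natDegree : ℝ) < (h.roots.countP (0 < ·) : ℕ) * m := by exact_mod_cast h2
  have h4 : h.natDegree * (Real.pi / m) < Real.pi * (h.roots.countP (0 < ·) : ℕ) := by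
    rw [← mul_div_assoc, div_lt_iff₀ hm0]
    nlinarith
  -- the values between are multiples of `π` or values at roots
  have h5 : Set.Ioo (h.natDegree * (Real.pi / m)) (Real.pi * (h.roots.countP (0 < ·) : ℕ)) ⊆
      (argFn h (Real.pi / m)) '' {t | (cx h).eval ((t : ℂ) * exp (((Real.pi / m : ℝ) : ℂ) * I)) = 0}
        ∪ Set.range fun n : ℤ => (n : ℝ) * Real.pi := by
    intro v hv
    obtain ⟨t, ht, htv⟩ := exists_argFn_eq h (Real.pi / m) v hv.1 (hv.2.trans_le h0')
    by_cases he : (cx h).eval ((t : ℂ) * exp (((Real.pi / m : ℝ) : ℂ) * I)) = 0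
    · exact Or.inl ⟨t, he, htv⟩
    · right
      obtain ⟨r, hr⟩ := eval_argFn h (Real.pi / m) t
      have h6 := hZ t ht
      rw [im_eval hr, htv] at h6
      have hr0 : r ≠ 0 := by
        rintro rfl
        exact he (by rw [hr]; simp)
      obtain ⟨n, hn⟩ := Real.sin_eq_zero_iff.1 ((mul_eq_zero.1 h6).resolve_left hr0)
      exact ⟨n, hn⟩
  have h6 : {t : ℝ | (cx h).eval ((t : ℂ) * exp (((Real.pi / m : ℝ) : ℂ) * I)) = 0}.Finite := by
    have hcx : cx h ≠ 0 := (Polynomial.map_ne_zero_iff (algebraMap ℝ ℂ).injective).2 h0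
    have h7 : {z : ℂ | (cx h).eval z = 0}.Finite := by
      refine ((cx h).roots.toFinset.finite_toSet).subset fun z hz => ?_
      rw [Finset.mem_coe, Multiset.mem_toFinset, mem_roots hcx]
      exact hz
    refine h7.preimage (f := fun t : ℝ => (t : ℂ) * exp (((Real.pi / m : ℝ) : ℂ) * I))
      (fun x _ y _ hxy => ?_)
    have := mul_right_cancel₀ (exp_ne_zero _) hxy
    exact_mod_cast this
  have h7 := ((h6.image (argFn h (Real.pi / m))).countable.union
    (Set.countable_range fun n : ℤ => (n : ℝ) * Real.pi)).mono h5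
  have h8 := h7.measure_zero MeasureTheory.volume
  rw [Real.volume_Ioo, ENNReal.ofReal_eq_zero] at h8
  linarith

end Pool.Agent.MP_c11b14_lc.SC
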