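import Pool.Agent.Lib.MP_c11b14_lc.SCMain

/-!
All real roots of `f g + 1`.
-/

set_option autoImplicit false

namespace Pool.Agent.MP_c11b14_lc.SC

open Polynomial

/-- The general form: the last summand is a monomial times a polynomial in `x^m`. -/
theorem pos_count_shift {m ρ e k : ℕ} (hm : 1 ≤ m) (hk : 1 ≤ k) {F g U : ℝ[X]} (hF : F ≠ 0)
    (h0 : X ^ ρ * expand ℝ m F * g ^ k + X ^ e * expand ℝ m U ≠ 0) :
    (X ^ ρ * expand ℝ m F * g ^ k + X ^ e * expand ℝ m U).roots.countP (0 < ·) ≤
      (X ^ ρ * expand ℝ m F * g ^ k + X ^ e * expand ℝ m U).natDegree / m +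
        (F.roots.toFinset.filter (· < 0)).card + k * (g.support.card - 1) + 1 +
          (if m ∣ e then 0 else 1) := by
  classical
  -- multiply by `x ^ e'` with `e + e' = m l`
  obtain ⟨e', l, he', hl⟩ : ∃ e' l : ℕ, e' ≤ (if m ∣ e then 0 else m) ∧ e + e' = m * l := by
    by_cases hme : m ∣ e
    · obtain ⟨l, rfl⟩ := hme
      exact ⟨0, l, by simp, by simp⟩
    rw [if_neg hme]
    refine ⟨m - e % m, e / m + 1, Nat.sub_le _ _, ?_⟩
    have h1 := Nat.div_add_mod e m
    have h2 := Nat.mod_lt e (show 0 < m by omega)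
    rw [mul_add, mul_one]
    omega
  have h1 : X ^ (ρ + e') * expand ℝ m F * g ^ k + expand ℝ m (X ^ l * U) =
      (X ^ ρ * expand ℝ m F * g ^ k + X ^ e * expand ℝ m U) * X ^ e' := by
    rw [map_mul, map_pow, expand_X, ← pow_mul, ← hl, pow_add, pow_add]
    ring
  have hX : (X : ℝ[X]) ^ e' ≠ 0 := pow_ne_zero _ X_ne_zero
  have h2 : (X ^ ρ * expand ℝ m F * g ^ k + X ^ e * expand ℝ m U) * X ^ e' ≠ 0 :=
    mul_ne_zero h0 hX
  have h3 := pos_count hm hk (ρ := ρ + e') (g := g) (U := X ^ l * U) hF (by rw [h1]; exact h2)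
  rw [h1] at h3
  have h4 : (X ^ ρ * expand ℝ m F * g ^ k + X ^ e * expand ℝ m U).roots.countP (0 < ·) ≤
      ((X ^ ρ * expand ℝ m F * g ^ k + X ^ e * expand ℝ m U) * X ^ e').roots.countP (0 < ·) :=
    Multiset.countP_le_of_le _ (by
      rw [roots_mul h2]
      exact Multiset.le_add_right _ _)
  have h5 : ((X ^ ρ * expand ℝ m F * g ^ k + X ^ e * expand ℝ m U) * X ^ e').natDegree / m ≤
      (X ^ ρ * expand ℝ m F * g ^ k + X ^ e * expand ℝ m U).natDegree / m +
        (if m ∣ e then 0 else 1) := by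
    rw [natDegree_mul h0 hX, natDegree_X_pow]
    split_ifs with hme
    · rw [if_pos hme] at he'
      have : e' = 0 := by omega
      simp [this]
    · rw [if_neg hme] at he'
      rw [← Nat.add_div_right _ (show 0 < m by omega)]
      exact Nat.div_le_div_right (by omega)
  omega

theorem support_neg (p : ℝ[X]) : (p.comp (-X)).support = p.support := by
  have h : (-X : ℝ[X]) = C (-1) * X := by simp
  ext i
  rw [h, mem_support_iff, mem_support_iff, comp_C_mul_X_coeff]
  have h1 : ((-1 : ℝ)) ^ i ≠ 0 := pow_ne_zero _ (by norm_num)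
  constructor
  · intro h2 h3
    exact h2 (by rw [h3, zero_mul])
  · intro h2 h3
    exact h2 ((mul_eq_zero.1 h3).resolve_right h1)

theorem natDegree_neg' (p : ℝ[X]) : (p.comp (-X)).natDegree = p.natDegree := by
  rw [natDegree_comp, natDegree_neg, natDegree_X, mul_one]

theorem card_pos_le (h : ℝ[X]) :
    (h.roots.toFinset.filter (0 < ·)).card ≤ h.roots.countP (0 < ·) := by
  classical
  rw [Multiset.countP_eq_card_filter, ← Multiset.toFinset_filter]
  exact Multiset.toFinset_card_le _

theorem card_roots_le (h : ℝ[X]) (N : ℕ) (h1 : h.roots.countP (0 < ·) ≤ N)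
    (h2 : (h.comp (-X)).roots.countP (0 < ·) ≤ N) : h.roots.toFinset.card ≤ 2 * N + 1 := by
  classical
  have h3 : h.roots.toFinset ⊆ h.roots.toFinset.filter (0 < ·) ∪
      ((h.comp (-X)).roots.toFinset.filter (0 < ·)).image (fun x => -x) ∪ {0} := by
    intro x hx
    rcases lt_trichotomy x 0 with hx0 | hx0 | hx0
    · refine Finset.mem_union_left _ (Finset.mem_union_right _ ?_)
      refine Finset.mem_image.2 ⟨-x, Finset.mem_filter.2 ⟨?_, by linarith⟩, neg_neg x⟩
      rw [roots_comp_neg_X, Multiset.mem_toFinset, Multiset.mem_map]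
      exact ⟨x, Multiset.mem_toFinset.1 hx, rfl⟩
    · exact Finset.mem_union_right _ (by simp [hx0])
    · exact Finset.mem_union_left _ (Finset.mem_union_left _ (Finset.mem_filter.2 ⟨hx, hx0⟩))
  have h4 := Finset.card_le_card h3
  have h5 := Finset.card_union_le (h.roots.toFinset.filter (0 < ·) ∪
      ((h.comp (-X)).roots.toFinset.filter (0 < ·)).image (fun x => -x)) {0}
  have h6 := Finset.card_union_le (h.roots.toFinset.filter (0 < ·))
      (((h.comp (-X)).roots.toFinset.filter (0 < ·)).image (fun x => -x))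
  have h7 := Finset.card_image_le (s := (h.comp (-X)).roots.toFinset.filter (0 < ·))
    (f := fun x => -x)
  have h8 := card_pos_le h
  have h9 := card_pos_le (h.comp (-X))
  rw [Finset.card_singleton] at h5
  omega

/-- Descartes for the negative roots. -/
theorem card_neg_roots {F : ℝ[X]} (hF : F ≠ 0) :
    (F.roots.toFinset.filter (· < 0)).card + 1 ≤ F.support.card := by
  classical
  have hne : F.comp (-X) ≠ 0 := fun h => by
    have := support_neg F
    rw [h, support_zero, eq_comm, support_eq_empty] at this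
    exact hF this
  have h1 := card_pos_roots hne
  rw [support_neg] at h1
  have h2 : (F.roots.toFinset.filter (· < 0)).card ≤
      ((F.comp (-X)).roots.toFinset.filter (0 < ·)).card := by
    refine Finset.card_le_card_of_injOn (fun x => -x) (fun x hx => ?_)
      (fun x _ y _ h => neg_injective h)
    rw [Finset.mem_coe, Finset.mem_filter] at hx ⊢
    refine ⟨?_, by have := hx.2; show 0 < -x; linarith⟩
    rw [roots_comp_neg_X, Multiset.mem_toFinset, Multiset.mem_map]
    exact ⟨x, Multiset.mem_toFinset.1 hx.1, rfl⟩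
  omega

theorem expand_comp_neg (m ρ : ℕ) (F : ℝ[X]) :
    ∃ F' : ℝ[X], F'.support = F.support ∧
      (X ^ ρ * expand ℝ m F).comp (-X) = X ^ ρ * expand ℝ m F' := by
  refine ⟨C ((-1) ^ ρ) * F.comp (C ((-1) ^ m) * X), ?_, ?_⟩
  · ext i
    rw [mem_support_iff, mem_support_iff, coeff_C_mul, comp_C_mul_X_coeff]
    have h1 : ((-1 : ℝ) ^ ρ) ≠ 0 := pow_ne_zero _ (by norm_num)
    have h2 : (((-1 : ℝ) ^ m) ^ i) ≠ 0 := pow_ne_zero _ (pow_ne_zero _ (by norm_num))
    constructor
    · intro h h3
      exact h (by rw [h3]; simp)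
    · intro h h3
      exact h ((mul_eq_zero.1 ((mul_eq_zero.1 h3).resolve_left h1)).resolve_right h2)
  · rw [mul_comp, X_pow_comp, map_mul, expand_C, expand_eq_comp_X_pow, expand_eq_comp_X_pow,
      comp_assoc, comp_assoc, X_pow_comp, mul_comp, C_comp, X_comp, neg_pow (X : ℝ[X]) ρ,
      neg_pow (X : ℝ[X]) m]
    have h1 : (C ((-1 : ℝ) ^ m) : ℝ[X]) = (-1) ^ m := by simp
    have h2 : (C ((-1 : ℝ) ^ ρ) : ℝ[X]) = (-1) ^ ρ := by simp
    rw [h1, h2]
    ring

/-- All real roots of `f g + 1`. -/
theorem real_count {m ρ : ℕ} (hm : 1 ≤ m) (F g : ℝ[X]) :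
    (X ^ ρ * expand ℝ m F * g + 1).roots.toFinset.card ≤
      2 * (((X ^ ρ * expand ℝ m F).natDegree + g.natDegree) / m) +
        2 * (F.support.card + g.support.card) - 1 := by
  classical
  by_cases hF : F = 0
  · simp [hF]
  by_cases hg : g = 0
  · simp [hg]
  by_cases h0 : X ^ ρ * expand ℝ m F * g + 1 = 0
  · simp [h0]
  have key : ∀ a b : ℝ[X], a ≠ 0 → b ≠ 0 →
      X ^ ρ * expand ℝ m a * b + 1 ≠ 0 →
      (X ^ ρ * expand ℝ m a * b + 1).roots.countP (0 < ·) + 1 ≤
        ((X ^ ρ * expand ℝ m a).natDegree + b.natDegree) / m + a.support.card +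
          b.support.card := by
    intro a b ha hb hab
    have h1 := pos_count hm le_rfl (ρ := ρ) (g := b) (U := 1) ha (by simpa using hab)
    simp only [map_one, pow_one, one_mul] at h1
    have hbc : 0 < b.support.card := Finset.card_pos.2 (support_nonempty.2 hb)
    have h2 : (X ^ ρ * expand ℝ m a * b + 1).natDegree ≤
        (X ^ ρ * expand ℝ m a).natDegree + b.natDegree :=
      (natDegree_add_le _ _).trans (by
        rw [natDegree_one]
        exact max_le natDegree_mul_le (Nat.zero_le _))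
    have h3 := Nat.div_le_div_right (c := m) h2
    have h4 := card_neg_roots ha
    omega
  have h1 := key F g hF hg h0
  obtain ⟨F', hF', hcomp'⟩ := expand_comp_neg m ρ F
  have hcomp : (X ^ ρ * expand ℝ m F * g + 1).comp (-X) =
      X ^ ρ * expand ℝ m F' * g.comp (-X) + 1 := by
    rw [add_comp, mul_comp, hcomp', one_comp]
  have hne : ∀ p : ℝ[X], p ≠ 0 → p.comp (-X) ≠ 0 := fun p hp h => by
    have := support_neg p
    rw [h, support_zero, eq_comm, support_eq_empty] at this
    exact hp this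
  have hF0 : F' ≠ 0 := fun h => by
    rw [h, support_zero, eq_comm, support_eq_empty] at hF'
    exact hF hF'
  have h2 := key F' (g.comp (-X)) hF0 (hne g hg) (by rw [← hcomp]; exact hne _ h0)
  rw [← hcomp, natDegree_neg', support_neg, hF', ← hcomp', natDegree_neg'] at h2
  have h3 := card_roots_le (X ^ ρ * expand ℝ m F * g + 1)
    (((X ^ ρ * expand ℝ m F).natDegree + g.natDegree) / m + F.support.card + g.support.card - 1)
    (by omega) (by omega)
  have hFc : 0 < F.support.card := Finset.card_pos.2 (support_nonempty.2 hF)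
  omega

/-- A square plus a monomial times a polynomial in `x^m`. -/
theorem square_count {m e : ℕ} (hm : 1 ≤ m) (c : ℝ) {g U : ℝ[X]} (hg : g ≠ 0)
    (h0 : C c * g ^ 2 + X ^ e * expand ℝ m U ≠ 0) :
    (C c * g ^ 2 + X ^ e * expand ℝ m U).roots.toFinset.card ≤
      2 * ((C c * g ^ 2 + X ^ e * expand ℝ m U).natDegree / m) + 4 * g.support.card + 1 := by
  classical
  have key : ∀ a V : ℝ[X], a ≠ 0 → C c * a ^ 2 + X ^ e * expand ℝ m V ≠ 0 →
      (C c * a ^ 2 + X ^ e * expand ℝ m V).roots.countP (0 < ·) ≤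
        (C c * a ^ 2 + X ^ e * expand ℝ m V).natDegree / m + 2 * a.support.card := by
    intro a V ha hV
    have hac : 0 < a.support.card := Finset.card_pos.2 (support_nonempty.2 ha)
    by_cases hc : c = 0
    · subst hc
      have h1 := pos_count_shift hm le_rfl (ρ := 0) (e := e) (F := 1) (g := 0) (U := V)
        one_ne_zero (by simpa using hV)
      have h9 : ((1 : ℝ[X]).roots.toFinset.filter (· < 0)).card = 0 := by simp
      rw [h9] at h1
      simp only [pow_zero, map_one, one_mul, pow_one, zero_add, support_zero, Finset.card_empty,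
        add_zero] at h1
      have h2 : C (0 : ℝ) * a ^ 2 + X ^ e * expand ℝ m V = X ^ e * expand ℝ m V := by simp
      rw [h2]
      split_ifs at h1 <;> omega
    · have h1 := pos_count_shift hm one_le_two (ρ := 0) (e := e) (F := C c) (g := a) (U := V)
        (by simpa using hc) (by simpa [expand_C] using hV)
      have h9 : ((C c : ℝ[X]).roots.toFinset.filter (· < 0)).card = 0 := by simp
      rw [h9] at h1
      simp only [pow_zero, one_mul, expand_C, add_zero] at h1
      split_ifs at h1 <;> omega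
  have h1 := key g U hg h0
  have hcomp : (C c * g ^ 2 + X ^ e * expand ℝ m U).comp (-X) =
      C c * (g.comp (-X)) ^ 2 +
        X ^ e * expand ℝ m (C ((-1) ^ e) * U.comp (C ((-1) ^ m) * X)) := by
    obtain ⟨V, hV⟩ : ∃ V : ℝ[X], V = C ((-1) ^ e) * U.comp (C ((-1) ^ m) * X) := ⟨_, rfl⟩
    have h2 : (X ^ e * expand ℝ m U).comp (-X) = X ^ e * expand ℝ m V := by
      rw [hV, mul_comp, X_pow_comp, map_mul, expand_C, expand_eq_comp_X_pow,
        expand_eq_comp_X_pow, comp_assoc, comp_assoc, X_pow_comp, mul_comp, C_comp, X_comp,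
        neg_pow (X : ℝ[X]) e, neg_pow (X : ℝ[X]) m]
      have h1 : (C ((-1 : ℝ) ^ m) : ℝ[X]) = (-1) ^ m := by simp
      have h2 : (C ((-1 : ℝ) ^ e) : ℝ[X]) = (-1) ^ e := by simp
      rw [h1, h2]
      ring
    rw [add_comp, h2, mul_comp, C_comp, pow_comp, ← hV]
  have hne : ∀ p : ℝ[X], p ≠ 0 → p.comp (-X) ≠ 0 := fun p hp h => by
    have := support_neg p
    rw [h, support_zero, eq_comm, support_eq_empty] at this
    exact hp this
  have h2 := key (g.comp (-X)) (C ((-1) ^ e) * U.comp (C ((-1) ^ m) * X)) (hne g hg)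
    (by rw [← hcomp]; exact hne _ h0)
  rw [← hcomp, natDegree_neg', support_neg] at h2
  have h3 := card_roots_le (C c * g ^ 2 + X ^ e * expand ℝ m U)
    ((C c * g ^ 2 + X ^ e * expand ℝ m U).natDegree / m + 2 * g.support.card) h1 h2
  omega

/-- Linear bound in terms of the sparsity. -/
theorem linear_count {m ρ s : ℕ} (hm : 1 ≤ m) {κ : ℝ} (F g : ℝ[X])
    (hF : F.support.card ≤ s) (hg : g.support.card ≤ s)
    (hd : (((X ^ ρ * expand ℝ m F).natDegree + g.natDegree : ℕ) : ℝ) ≤ κ * s * m) :
    ((X ^ ρ * expand ℝ m F * g + 1).roots.toFinset.card : ℝ) ≤ (2 * κ + 4) * s := by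
  have h1 := real_count hm (ρ := ρ) F g
  have hm0 : (0 : ℝ) < m := by exact_mod_cast (by omega : 0 < m)
  have h2 : ((((X ^ ρ * expand ℝ m F).natDegree + g.natDegree) / m : ℕ) : ℝ) ≤ κ * s := by
    refine Nat.cast_div_le.trans ?_
    rw [div_le_iff₀ hm0]
    exact hd
  have h3 : (X ^ ρ * expand ℝ m F * g + 1).roots.toFinset.card ≤
      2 * (((X ^ ρ * expand ℝ m F).natDegree + g.natDegree) / m) + 4 * s := by omega
  have h4 : ((X ^ ρ * expand ℝ m F * g + 1).roots.toFinset.card : ℝ) ≤
      2 * ((((X ^ ρ * expand ℝ m F).natDegree + g.natDegree) / m : ℕ) : ℝ) + 4 * s := by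
    exact_mod_cast h3
  linarith

theorem card_support_le_natDegree (p : ℝ[X]) : p.support.card ≤ p.natDegree + 1 := by
  have h : p.support ⊆ Finset.range (p.natDegree + 1) := fun i hi =>
    Finset.mem_range.2 (Nat.lt_succ_of_le (le_natDegree_of_mem_supp i hi))
  simpa using Finset.card_le_card h

theorem card_support_expand {b : ℕ} (hb : 1 ≤ b) (G : ℝ[X]) :
    (expand ℝ b G).support.card ≤ G.support.card := by
  classical
  have h : (expand ℝ b G).support ⊆ G.support.image (b * ·) := by
    intro i hi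
    rw [mem_support_iff, coeff_expand (by omega)] at hi
    by_cases h : b ∣ i
    · rw [if_pos h] at hi
      obtain ⟨j, rfl⟩ := h
      rw [Nat.mul_div_cancel_left _ (by omega)] at hi
      exact Finset.mem_image.2 ⟨j, mem_support_iff.2 hi, rfl⟩
    · simp [h] at hi
  exact (Finset.card_le_card h).trans Finset.card_image_le

/-- Dense polynomials in two powers of `x`. -/
theorem two_powers {a b s : ℕ} (ha : 1 ≤ a) (hb : 1 ≤ b) (F G : ℝ[X]) (hF : F.natDegree < s)
    (hG : G.natDegree < s) : (expand ℝ a F * expand ℝ b G + 1).roots.toFinset.card ≤ 8 * s := by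
  wlog hab : b ≤ a generalizing a b F G
  · have := this hb ha G F hG hF (by omega)
    rwa [mul_comm]
  have h1 := real_count ha (ρ := 0) F (expand ℝ b G)
  rw [pow_zero, one_mul] at h1
  have h2 := card_support_le_natDegree F
  have h3 := (card_support_expand hb G).trans (card_support_le_natDegree G)
  have h4 : ((expand ℝ a F).natDegree + (expand ℝ b G).natDegree) / a ≤
      F.natDegree + G.natDegree := by
    rw [natDegree_expand, natDegree_expand]
    refine Nat.div_le_of_le_mul ?_
    have := Nat.mul_le_mul_left G.natDegree hab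
    nlinarith
  omega

end Pool.Agent.MP_c11b14_lc.SC
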